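import Mathlib
import Pool.Agent.helper46.DS.Cert

/-!
# MP_2e0e07_nt: geometric origin is decided by finite certificates

Setting. `Γ` is a compact topological group with nonempty sets `frob v` of Frobenius elements, dense
outside every finite set of places; `N` a normal subgroup such that `Γ` has only finitely many open
normal subgroups containing `N` of every index. (For the question: `Γ = G_K` for the imaginary
quadratic field `K`, `N` the Galois group over the maximal extension of `K` unramified outside a
finite set of places; Chebotarev, Hermite-Minkowski.) `E` is a number field; for the places `v`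
outside the finite set `T₁` there are monic polynomials `P i v`, `Q v` over the integers of `E`, of
degree `n i` and `2`, with roots of absolute value at most `B v`; one of the `P i v` is
`X - Q v (0)`. They have a realisation `V₁ i`, `ρ₁` over an extension of `ℚ_p` of degree at most
`e`, trivial on `N`.

Theorem. Let `ρ₀`, `V₀ i` be a realisation over some algebraically closed Hausdorff topological
field of characteristic zero (for instance `ℚ_l-bar`, any `l`), `ρ₀` irreducible on every open
subgroup. Equivalent are:

1. `ρ₀` is a subquotient of `V₀ ⊗ ⋯ ⊗ V₀ ⊗ V₀^∨ ⊗ ⋯ ⊗ V₀^∨` for some numbers of factors, `V₀` the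
   direct sum of the `V₀ i`;
2. there is a polynomial `Φ` over the integers of `E` in the coefficients of the `P i` and in one
   more variable, such that `Φ_v(a_v) = 0` for all `v` outside `T₁` and `Φ_v(-a_v) ≠ 0` for one of
   them (`Q v = X² - a_v X + ..`);
3. there is a finite certificate: numbers `D`, `H`, such a `Φ` of weight at most `D` and height at
   most `H`, a finite set `T` of places outside `T₁` whose Frobenius elements meet all cosets of the
   open normal subgroups `U ⊇ N` of index at most `p ^ (e (∑ n i + 3) ^ (2 D))`, such that for the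
   finitely many `v ∈ T` the value `Φ_v(a_v)` is in some ideal of norm greater than
   `(H ((∑ n i + 2) B v) ^ D) ^ [E : ℚ]`, and `Φ_v(-a_v) ≠ 0` for one `v` outside `T₁`;
4. for every realisation `ρ` is a subquotient of a tensor construction of the `V i`.

Use for the question. `V i = H^j(X i)(m)`, `X i` smooth projective over `K`, and `det ρ_{f,p}`
(Künneth, Poincaré duality: the tensor constructions come from varieties). (3) => (4) for all `p`: a
Faltings-Serre method in which the varieties, the degrees and the relation are arbitrary, and in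
which only congruences are checked; (1) => (3): the method always succeeds when there is something
to find. The known method compares the traces of two representations of the same dimension.

Proof. (3) => (2): `Φ` is a polynomial of degree `D` in the matrix entries of `⊕ V₁ i ⊕ ρ₁`; by
Nakayama's lemma the Frobenius elements at `T` span the `ℤ_p`-module generated by the tensor power
`D` of the image; `Φ_v(a_v)` is an integer of small conjugates in a large ideal, so zero.
(2) => (4): `Φ(tr ρ) = 0` on the whole group. The component argument of `Pool/Agent/helper85/AR`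
gives that the coefficients of `ad ρ` are in the algebra `A` of the coefficients of `V` on an open
subgroup; if `A` did not contain the coefficients of `ρ`, the algebra `A[ρ]` would be graded by
`ℤ/2` and `Φ(-tr ρ)` would vanish. From the open subgroup to the whole group: the coefficients of
`ρ` are integral over `A`, so those of `ad ρ` are in `A`, and the sign argument can be repeated.
(1) => (2): the product of all `N X - (m + m')`, `m`, `m'` monomials in the eigenvalues of `V`.
-/

namespace Pool.Agent.Results.MP_2e0e07_nt.FiniteCertificate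

open Polynomial NumberField Matrix Pool.Agent.GO Pool.Agent.AR Pool.Agent.RG Pool.Agent.DS

universe u

theorem result {Γ Place : Type*} [Group Γ] [TopologicalSpace Γ] [IsTopologicalGroup Γ]
    [CompactSpace Γ] (frob : Place → Set Γ) (hne : ∀ v, (frob v).Nonempty)
    (hd : DenseIn frob ⊤ Set.univ) (N : Subgroup Γ) [N.Normal]
    (hfin : ∀ B : ℕ,
      {U : Subgroup Γ | IsOpen (U : Set Γ) ∧ U.Normal ∧ N ≤ U ∧ U.index ≤ B}.Finite)
    (T₁ : Set Place) (hT₁ : T₁.Finite) {E : Type*} [Field E] [NumberField E] {r : ℕ}
    (n : Fin r → ℕ) (P : Fin r → Place → (𝓞 E)[X]) (Q : Place → (𝓞 E)[X]) (i₀ : Fin r)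
    (hdet : ∀ v, P i₀ v = X - C ((Q v).coeff 0))
    (B : Place → ℕ) (hB : ∀ v ∉ T₁, 1 ≤ B v)
    (hP : ∀ v ∉ T₁, ∀ i, IsBounded (n i) (B v) (P i v))
    (hQ : ∀ v ∉ T₁, IsBounded 2 (B v) (Q v))
    {p : ℕ} [Fact p.Prime] (e : ℕ)
    -- the realisation over a finite extension of `ℚ_p`
    {F₁ : Type*} [Field F₁] [Algebra ℚ_[p] F₁] [FiniteDimensional ℚ_[p] F₁] [TopologicalSpace F₁]
    [IsTopologicalRing F₁] [ContinuousSMul ℚ_[p] F₁] [T2Space F₁]
    (he : Module.finrank ℚ_[p] F₁ ≤ e) (ι₁ : E →+* F₁)
    (V₁ : (i : Fin r) → Γ →* Matrix (Fin (n i)) (Fin (n i)) F₁)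
    (ρ₁ : Γ →* Matrix (Fin 2) (Fin 2) F₁) (hR₁ : IsFiniteRealisation frob N T₁ P Q ι₁ V₁ ρ₁)
    -- a realisation over an algebraically closed field
    {F₀ : Type u} [Field F₀] [IsAlgClosed F₀] [CharZero F₀] [TopologicalSpace F₀]
    [IsTopologicalRing F₀] [T2Space F₀] (ι₀ : E →+* F₀)
    (V₀ : (i : Fin r) → Γ →* Matrix (Fin (n i)) (Fin (n i)) F₀)
    (ρ₀ : Γ →* Matrix (Fin 2) (Fin 2) F₀)
    (hR₀ : IsRealisation frob (fun i v => (P i v).map (algebraMap (𝓞 E) E))
      (fun v => (Q v).map (algebraMap (𝓞 E) E)) ι₀ V₀ ρ₀) :
    List.TFAE [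
      -- 1. geometric origin for one realisation
      ∃ a b : ℕ, IsSubquotient (fun g => ρ₀ g) (tens (dirSum V₀) a b),
      -- 2. a relation at all places
      ∃ Φ : (MvPolynomial (Fin r × ℕ) (𝓞 E))[X],
        (∀ v ∉ T₁, relVal Φ (fun i => P i v) (Q v) = 0) ∧
        ∃ v ∉ T₁, relNeg Φ (fun i => P i v) (Q v) ≠ 0,
      -- 3. a finite certificate
      HasCertificate frob N T₁ n P Q B p e,
      -- 4. geometric origin for all realisations
      ∀ (F : Type u) [Field F] [IsAlgClosed F] [CharZero F] [TopologicalSpace F]
        [IsTopologicalRing F] [T2Space F] (ι : E →+* F)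
        (V : (i : Fin r) → Γ →* Matrix (Fin (n i)) (Fin (n i)) F)
        (ρ : Γ →* Matrix (Fin 2) (Fin 2) F),
        IsRealisation frob (fun i v => (P i v).map (algebraMap (𝓞 E) E))
          (fun v => (Q v).map (algebraMap (𝓞 E) E)) ι V ρ →
        ∃ a b : ℕ, IsSubquotient (fun g => ρ g) (tens (dirSum V) a b)] :=
  certificate frob hne hd N hfin T₁ hT₁ n P Q i₀ hdet B hB hP hQ e he ι₁ V₁ ρ₁ hR₁ ι₀ V₀ ρ₀ hR₀

end Pool.Agent.Results.MP_2e0e07_nt.FiniteCertificate
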