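import Mathlib
import Pool.Agent.helper46.DS.Gap2
import Pool.Agent.helper91.HZ.Main

/-!
# MP_2e0e07_nt: a gap in the torsion of varieties, and geometric origin

Let `Γ` be a compact topological group with Haar measure `μ` and sets `frob v` of Frobenius
elements, dense in `Γ` also after removing finitely many places `v` (for the question: the absolute
Galois group of the imaginary quadratic field `K` and Chebotarev's theorem), `E` a number field,
`Q v = X² - a_v X + d_v` a polynomial over `E` for every `v` (the Hecke polynomials of a Bianchi
newform `f` without CM) and, for `j` in a set `J`, polynomials `P j i v` over `E` (`i = 1, ..., r`; the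
Frobenius polynomials of the `H^i(X_j)`, `X_j` varieties over `K`, one of them `X - d_v` for `det ρ`).

Suppose that the `P j` are finitely many outside a finite set `T₁` of places (for instance: one `X`), or
that (`HasBoundedRealisations`) for every `v ∉ T₁` the `P j i v` are finitely many, and
`p₀`-adic realisations of the `P j` of fixed dimensions, over one finite extension of `ℚ_[p₀]`, are
trivial on a normal subgroup `N` contained in finitely many open normal subgroups of every index (for
the question: all varieties with given Betti numbers and good reduction outside a fixed finite set `S`;
the theorems of Deligne and Hermite-Minkowski).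

Residual data (`IsResidualFam`): for every `j` a prime `p j`, representations `V' j i` over the field
with `p j` elements and an irreducible representation `ρ' j` of dimension two over an algebraically
closed field of characteristic `p j`, whose Frobenius polynomials are the reductions of the `P j i v`
and `Q v` at a place of `E`, such that `p j` divides the order of the image of `ρ' j` (for the question:
`j = (X, p)`, the cohomology of `X` modulo `p`, and the reduction of `ρ_{f,λ}`, `λ | p`). Let
`D j = adDegree (V' j) (ρ' j) = [K(ad ρ' j) K(V' j) : K(V' j)]`, the degree over the field cut out
by the `V' j i` of its compositum with the field cut out by `ad (ρ' j)`.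

Theorem. Assume that there is a field `F` with realisations `V j` of all the `P j` and a realisation
`ρ` of `Q`, irreducible on open subgroups. There are `c` and `B` such that for every `j` (that is: for
every `X` of the family and every `p`) one of the following holds:
* `D j ≤ B`, and for EVERY realisation of `(P j, Q)` over any algebraically closed Hausdorff field of
  characteristic zero, `ad⁰ ρ` is on an open subgroup a subquotient of a tensor construction of
  `V j = ⊕ V j i`; and `ρ` itself arises from `V j` (subquotient of some `V j i ⊗ F[Fin N]`, a
  permutation representation with open kernel) if the system has a good set of places (`f` of weight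
  two, or ordinary at enough places);
* `D j ≥ p j / c`, and both fail for EVERY realisation.

So the relative degree never lies between `B` and `p / c`, and ONE prime `p > c B` and the field
`K(ad ρ_f mod p) K(X mod p)` decide whether `ρ_{f, λ}` comes from `X`, for every `X` of the family and
all `λ`. If `J` is infinite, `p j → ∞` and `P j = P` for all `j`: the `D j` are bounded iff
`liminf D j / p j = 0` iff `ρ` arises from `V` in a realisation (with a good set).

Proof. Faltings: systems of the family which agree at a finite set of places meeting the open normal
subgroups containing `N` of an explicit index agree, so there are finitely many systems. For one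
system: if there is no algebraic relation for the ratio of the eigenvalues of `ρ` over `V`, the degree
`D j` is at least `p j / c`: ultraproducts, unipotent elements, counting points of affine spaces (rows
of the project HZ of helper91); if there is one, then `ad⁰ ρ` is a subquotient of a tensor construction
(projects AR, RG), and by reduction of the eigenvalues `ker V' j` acts by scalars on an open subgroup.
-/

namespace Pool.Agent.Results.MP_2e0e07_nt.HorizontalGap

open Matrix Polynomial Pool.Agent.GO Pool.Agent.AR Pool.Agent.RG Pool.Agent.HZ Pool.Agent.DS
  MeasureTheory NumberField

universe u v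

theorem result {Γ : Type} {Place : Type u} {E : Type} [Group Γ] [TopologicalSpace Γ]
    [IsTopologicalGroup Γ] [CompactSpace Γ] [MeasurableSpace Γ] [BorelSpace Γ]
    (μ : Measure Γ) [μ.IsHaarMeasure] (frob : Place → Set Γ)
    -- the Frobenius elements are dense
    (hd : DenseIn frob ⊤ Set.univ) [Field E] [NumberField E]
    -- the family of systems
    {r : ℕ} {n : Fin r → ℕ} {J : Type} (P : J → Fin r → Place → E[X]) (Q : Place → E[X])
    -- `det ρ` is one of the `V j i`
    (i₀ : Fin r) (hdet : ∀ j v, P j i₀ v = X - C ((Q v).coeff 0))
    -- finitely many systems, or realisations with bounded ramification and bounded weights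
    (T₁ : Set Place) (hT₁ : T₁.Finite)
    (hfam : (Set.range fun j => fun v : {v : Place // v ∉ T₁} => fun i => P j i v.1).Finite ∨
      HasBoundedRealisations frob n P T₁)
    -- the residual representations
    (p : J → ℕ) (κ : J → Type) [∀ j, Field (κ j)] [∀ j, IsAlgClosed (κ j)]
    [∀ j, CharP (κ j) (p j)] (φ : ∀ j, 𝓞 E →+* κ j)
    (V' : ∀ j, (i : Fin r) → Γ →* Matrix (Fin (n i)) (Fin (n i)) (ZMod (p j)))
    (ρ' : ∀ j, Γ →* Matrix (Fin 2) (Fin 2) (κ j)) (hR' : IsResidualFam frob P Q p κ φ V' ρ')
    -- there are realisations
    {F : Type v} [Field F] [IsAlgClosed F] [CharZero F] [TopologicalSpace F]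
    [IsTopologicalRing F] [T2Space F] (ι : E →+* F)
    (V : J → (i : Fin r) → Γ →* Matrix (Fin (n i)) (Fin (n i)) F)
    (ρ : Γ →* Matrix (Fin 2) (Fin 2) F) (hR : ∀ j, IsRealisation frob (P j) Q ι (V j) ρ) :
    ∃ c B : ℕ, ∀ j,
      (adDegree (V' j) (ρ' j) ≤ B ∧ AllArise.{v} μ frob n (P j) Q) ∨
        (p j ≤ c * adDegree (V' j) (ρ' j) ∧ NoneArises.{v} μ frob n (P j) Q) := by
  refine gap2 μ frob fwd_all bwd_all hd P Q i₀ hdet T₁ hT₁ ?_ p κ φ V' ρ' hR' ι V ρ hR
  exact hfam.elim (fun h => h) (finite_classes frob hd P T₁ hT₁)

end Pool.Agent.Results.MP_2e0e07_nt.HorizontalGap
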