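import Pool.Agent.helper39.TF.Proof

/-!
# MP_3703a7_ag: the Tate conjecture for products of Fermat curves, in all degrees, with the action of the Galois group

`F_j : x^(m_j) + y^(m_j) = 1`, `j < r`, are arbitrary Fermat curves over `ℚbar` (`Fer`), `J` is the product of their Jacobians. The group `D.G` of ideal
classes of their rings of functions is the group `J(ℚbar)` up to a finite group (differences of the points at infinity), and
`D.V l` (homomorphisms `ℚ_l → D.G` vanishing on `l^k ℤ_l` for some `k`) is the rational Tate module `V_l(J)`. A Tate class (`IsTate`) over the number field
`ℚ(S)` is `X ∈ Λ^(2a) V_l(J) = H_(2a)(J, ℚ_l)` with `σ X = χ(σ)^a X` for all `σ` in the Galois group of `ℚ(S)`, acting on the coefficients of ideals.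

`J(ℂ) = ℂ^I ⧸ Lam`, `I` the set of the holomorphic differentials `x^(b-1) y^(c-m_j) dx`, and the comparison isomorphism `V_l(J) ≅ ℚ_l ⊗ Lam` commutes with the
roots of unity, which act on the curves by `(x, y) ↦ (s x, t y)`, and on `Lam` through an embedding `ι` of `ℚbar` in `ℂ` (`Emb`). Only this property is
used: `Lam` is any lattice stable under the roots of unity and `c : V_l(J) → ℚ_l ⊗ Lam` any linear map commuting with them (`IsCmp`).

Algebraic classes: a compact ball quotient `Gam \ B^a` (`BallQuotient`) is a projective variety (Kodaira), a holomorphic map
`f : Gam \ B^a → ℂ^I ⧸ Lam` (`IsMap`) is algebraic (Chow), `cls M f` is the class of the cycle `f_* [Gam \ B^a]`: the integral over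
the ball quotient of the pull back of forms.

## Theorem

`c` maps every Tate class, of every degree, over every number field, to a `ℚ_l`-linear combination of classes of holomorphic
maps of compact ball quotients (`BallL`). Nothing is assumed about the Galois representation.

## The proof (`Pool/Agent/helper39/FJ`)

Let `O` be a valuation ring of `ℚbar` over a prime `p = 1` modulo all `m_j`, with residue field `k`. Reduction of points
gives a homomorphism `sp` of class groups (upper semicontinuity of the divisor of a function and comparison of
degrees by norms). In characteristic `p` the function `v (1 - x / τ)^((p-1)/m) - y` on `x^(p-1) + y^m = 1` (Coleman) has the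
zeros `(a τ, (1 - a)^((p-1)/m) v)`, `a = 2, ..., p-1`, and one more; the norm of its ideal to `x^m + y^m = 1` shows
`Frob + ∑_a (s_a, t_a) = 0` on the class group, `s_a = a^((p-1)/m)`, `t_a = (1 - a)^((p-1)/m)`. So a Frobenius element `σ` at `O`
satisfies `sp ∘ σ = sp ∘ j`, `j = - ∑_a (s_a, t_a)` with roots of unity `s_a`, `t_a` of `ℚbar`. A given Tate class `X` lies in
`Λ U`, `U ⊂ V_l(J)` of finite dimension, stable under roots of unity. A class of ideals whose `m`-th power is not trivial
does not specialise to the trivial class at almost all `O` (a finite system of linear equations has only the trivial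
solution), so `sp` is injective on `U` for almost all `O`, and `j X = p^a X`. The eigenvalues of `j` are Jacobi sums; they
are units or not at `O` according to the type of the eigenvector (Stickelberger). So `c X` is a `ℚ_l`-linear combination of
integral classes of type `(a, a)`, which are Hodge classes on an abelian variety of CM type, and these are `ℚ`-linear
combinations of classes of holomorphic maps of compact ball quotients (`T_HodgeCM`; theta forms on compact unitary ball
quotients; see also the hand-in TateCM).

No unproved statement is assumed.
-/

namespace Pool.Agent.Results.MP_3703a7_ag.TateFermat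

open Pool.Agent.HC Pool.Agent.HC.Tate Pool.Agent.TC Pool.Agent.TF

/-- The Tate conjecture in all degrees for all products of Jacobians of Fermat curves, for the action of the Galois group on
the Tate module of the class group. -/
theorem result :
    ∀ (D : Fer) (ι : Emb) (Lam : AddSubgroup D.W) (l : ℕ) [Fact l.Prime] (c : D.C Lam l),
      Fer.IsCmp ι Lam c → ∀ (S : Finset Qb) (a : ℕ) (X : EX ℚ_[l] (D.V l)), Fer.IsTate S a X →
      BallL (D.T Lam) l a (c.map X) :=
  fun D ι Lam l _ c hc S a X hX => TF.main D ι Lam l c hc S a X hX

end Pool.Agent.Results.MP_3703a7_ag.TateFermat
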